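import Pool.Agent.H574R3.CS.Stmts

set_option autoImplicit false

namespace Pool.Agent.H468R3.CS

open Pool.Agent.H574R3.CS

section
variable {K : Type} [Field K]

theorem nf_of (T : Ten K) (h333 : T 3 3 3 = 0) (h330 : T 0 3 3 + T 3 0 3 + T 3 3 0 = 0)
    (h331 : T 1 3 3 + T 3 1 3 + T 3 3 1 = 0) (h332 : T 2 3 3 + T 3 2 3 + T 3 3 2 = 1) :
    ∃ n : NF K, IsNF T n := by
  refine ⟨{ q1 := T 3 0 0 + T 0 3 0 + T 0 0 3
            q2 := T 3 0 1 + T 3 1 0 + T 0 3 1 + T 1 3 0 + T 0 1 3 + T 1 0 3
            q3 := T 3 1 1 + T 1 3 1 + T 1 1 3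
            m1 := T 3 2 0 + T 3 0 2 + T 2 3 0 + T 0 3 2 + T 2 0 3 + T 0 2 3
            m2 := T 3 2 1 + T 3 1 2 + T 2 3 1 + T 1 3 2 + T 2 1 3 + T 1 2 3
            m3 := T 3 2 2 + T 2 3 2 + T 2 2 3
            a := T 0 0 0
            b := T 0 0 1 + T 0 1 0 + T 1 0 0
            c := T 0 1 1 + T 1 0 1 + T 1 1 0
            d := T 1 1 1
            h1 := T 2 0 0 + T 0 2 0 + T 0 0 2
            h2 := T 2 0 1 + T 2 1 0 + T 0 2 1 + T 1 2 0 + T 0 1 2 + T 1 0 2
            h3 := T 2 1 1 + T 1 2 1 + T 1 1 2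
            l1 := T 2 2 0 + T 2 0 2 + T 0 2 2
            l2 := T 2 2 1 + T 2 1 2 + T 1 2 2
            k := T 2 2 2 }, ?_, ?_⟩
  · intro A _ _ v
    have e333 : algebraMap K A (T 3 3 3) = 0 := by rw [h333, map_zero]
    have e330 : algebraMap K A (T 0 3 3) + algebraMap K A (T 3 0 3) + algebraMap K A (T 3 3 0) = 0 := by
      rw [← map_add, ← map_add, h330, map_zero]
    have e331 : algebraMap K A (T 1 3 3) + algebraMap K A (T 3 1 3) + algebraMap K A (T 3 3 1) = 0 := by
      rw [← map_add, ← map_add, h331, map_zero]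
    have e332 : algebraMap K A (T 2 3 3) + algebraMap K A (T 3 2 3) + algebraMap K A (T 3 3 2) = 1 := by
      rw [← map_add, ← map_add, h332, map_one]
    simp only [cub, NF.F, Fin.sum_univ_four, map_add]
    linear_combination (v 3) ^ 3 * e333 + (v 3) ^ 2 * v 0 * e330 + (v 3) ^ 2 * v 1 * e331 +
      (v 3) ^ 2 * v 2 * e332
  · intro A _ _ u v
    have e333 : algebraMap K A (T 3 3 3) = 0 := by rw [h333, map_zero]
    have e330 : algebraMap K A (T 0 3 3) + algebraMap K A (T 3 0 3) + algebraMap K A (T 3 3 0) = 0 := by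
      rw [← map_add, ← map_add, h330, map_zero]
    have e331 : algebraMap K A (T 1 3 3) + algebraMap K A (T 3 1 3) + algebraMap K A (T 3 3 1) = 0 := by
      rw [← map_add, ← map_add, h331, map_zero]
    have e332 : algebraMap K A (T 2 3 3) + algebraMap K A (T 3 2 3) + algebraMap K A (T 3 3 2) = 1 := by
      rw [← map_add, ← map_add, h332, map_one]
    simp only [D, NF.DF, Fin.sum_univ_four, map_add]
    linear_combination (3 * (u 3) ^ 2 * v 3) * e333 +
      (2 * u 3 * v 3 * u 0 + (u 3) ^ 2 * v 0) * e330 +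
      (2 * u 3 * v 3 * u 1 + (u 3) ^ 2 * v 1) * e331 +
      (2 * u 3 * v 3 * u 2 + (u 3) ^ 2 * v 2) * e332

/-- the derivative as a linear map -/
noncomputable def DL (a : Ten K) {A : Type} [CommRing A] [Algebra K A] (u : Fin 4 → A) :
    (Fin 4 → A) →ₗ[A] A where
  toFun v := D a u v
  map_add' v w := by
    show D a u (fun i => v i + w i) = D a u v + D a u w
    have := D_comb a u v w 1 1
    simpa using this
  map_smul' c v := by
    show D a u (fun i => c * v i) = c * D a u v
    have := D_comb a u v v c 0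
    simpa using this

theorem DL_apply (a : Ten K) {A : Type} [CommRing A] [Algebra K A] (u v : Fin 4 → A) :
    DL a u v = D a u v := rfl

theorem D_zero_ext (a : Ten K) {L : Type} [CommRing L] [Algebra K L] (x : Fin 4 → K)
    (h0 : ∀ v : Fin 4 → K, D a x v = 0) (w : Fin 4 → L) :
    D a (fun i => algebraMap K L (x i)) w = 0 := by
  rw [← DL_apply, LinearMap.pi_apply_eq_sum_univ]
  refine Finset.sum_eq_zero fun i _ => ?_
  have h2 : (fun j : Fin 4 => if i = j then (1 : L) else 0) =
      fun j => algebraMap K L (if i = j then 1 else 0) := by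
    funext j
    split_ifs
    · rw [map_one]
    · rw [map_zero]
  have h3 := map_D a (Algebra.ofId K L) x (fun j => if i = j then 1 else 0)
  rw [h0, map_zero] at h3
  simp only [Algebra.ofId_apply] at h3
  rw [DL_apply, h2, ← h3, smul_zero]

theorem cub_ext (a : Ten K) {L : Type} [CommRing L] [Algebra K L] (x : Fin 4 → K) :
    cub a (fun i => algebraMap K L (x i)) = algebraMap K L (cub a x) := by
  have h3 := map_cub a (Algebra.ofId K L) x
  simp only [Algebra.ofId_apply] at h3
  exact h3.symm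

theorem DL_ne (a : Ten K) (hs : Smooth a) (x : Fin 4 → K) (hx : x ≠ 0) (hc : cub a x = 0) :
    ∃ v, D a x v ≠ 0 := by
  by_contra h0
  push Not at h0
  have hne : (fun i => algebraMap K (AlgebraicClosure K) (x i)) ≠ 0 := by
    intro h
    apply hx
    funext i
    have h1 := congrFun h i
    rw [Pi.zero_apply, map_eq_zero] at h1
    exact h1
  have hcc : cub a (fun i => algebraMap K (AlgebraicClosure K) (x i)) = 0 := by
    rw [cub_ext, hc, map_zero]
  obtain ⟨w, hw⟩ := hs _ hne hcc
  exact hw (D_zero_ext a x h0 w)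

end

theorem taskR : TaskR := by
  intro K _ a hs x hx hc
  obtain ⟨v, hv⟩ := DL_ne a hs x hx hc
  rw [← DL_apply] at hv
  set φ : (Fin 4 → K) →ₗ[K] K := DL a x with hφ
  have hφx : φ x = 0 := by
    rw [hφ, DL_apply, D_self, hc, mul_zero]
  have hne : φ ≠ 0 := by
    intro h
    apply hv
    rw [h]
    rfl
  set y2 : Fin 4 → K := (φ v)⁻¹ • v with hy2
  have hφy2 : φ y2 = 1 := by
    rw [hy2, map_smul, smul_eq_mul, inv_mul_cancel₀ hv]
  have hfr : Module.finrank K (LinearMap.ker φ) = 3 := by
    have h1 := φ.finrank_range_add_finrank_ker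
    have h2 : LinearMap.range φ = ⊤ := LinearMap.range_eq_top.2 (LinearMap.surjective hne)
    rw [h2, finrank_top, Module.finrank_self, Module.finrank_fin_fun] at h1
    omega
  set x' : LinearMap.ker φ := ⟨x, hφx⟩ with hx'
  have hx'0 : x' ≠ 0 := by
    intro h
    exact hx (congrArg Subtype.val h)
  have li1 : LinearIndependent K ![x'] := .of_subsingleton (v := ![x']) 0 hx'0
  obtain ⟨y1, li2⟩ := exists_linearIndependent_cons_of_lt_finrank li1 (by rw [hfr]; norm_num)
  obtain ⟨y0, li3⟩ := exists_linearIndependent_cons_of_lt_finrank li2 (by rw [hfr]; norm_num)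
  set g : Matrix (Fin 4) (Fin 4) K :=
    Matrix.of fun i j => (![(y0 : Fin 4 → K), (y1 : Fin 4 → K), y2, x] j) i with hg
  have hli : LinearIndependent K ![(y0 : Fin 4 → K), (y1 : Fin 4 → K), y2, x] := by
    rw [Fintype.linearIndependent_iff]
    intro c hsum
    rw [Fin.sum_univ_four] at hsum
    simp only [Matrix.cons_val_zero, Matrix.cons_val_one, Matrix.cons_val] at hsum
    have hc2 : c 2 = 0 := by
      have := congrArg φ hsum
      have e0 : φ (y0 : Fin 4 → K) = 0 := y0.2
      have e1 : φ (y1 : Fin 4 → K) = 0 := y1.2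
      simp only [map_add, LinearMap.map_smul, hφx, hφy2, e0, e1, map_zero, smul_eq_mul, mul_zero,
        mul_one, zero_add, add_zero] at this
      exact this
    rw [hc2, zero_smul, add_zero] at hsum
    have h3 := Fintype.linearIndependent_iff.1 li3 ![c 0, c 1, c 3] (by
      rw [Fin.sum_univ_three]
      apply Subtype.ext
      exact hsum)
    have h30 := h3 0
    have h31 := h3 1
    have h32 := h3 2
    simp only [Matrix.cons_val_zero, Matrix.cons_val_one, Matrix.cons_val] at h30 h31 h32
    intro i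
    fin_cases i
    · exact h30
    · exact h31
    · exact hc2
    · exact h32
  have hdet : IsUnit g.det := by
    rw [← Matrix.isUnit_iff_isUnit_det, ← Matrix.linearIndependent_cols_iff_isUnit]
    exact hli
  refine ⟨g, hdet, ?_, ?_⟩
  · funext i
    simp [mulV, Fin.sum_univ_four, e3, hg]
  · have g0 : ∀ i, g i 0 = (y0 : Fin 4 → K) i := fun i => rfl
    have g1 : ∀ i, g i 1 = (y1 : Fin 4 → K) i := fun i => rfl
    have g2 : ∀ i, g i 2 = y2 i := fun i => rfl
    have g3 : ∀ i, g i 3 = x i := fun i => rfl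
    have key : ∀ (p : Fin 4) (y : Fin 4 → K), (∀ i, g i p = y i) →
        tr a g p 3 3 + tr a g 3 p 3 + tr a g 3 3 p = D a x y := by
      intro p y hp
      simp only [tr, D, g3, hp, ← Finset.sum_add_distrib, Algebra.algebraMap_self,
        RingHom.id_apply]
      refine Finset.sum_congr rfl fun i _ => Finset.sum_congr rfl fun j _ =>
        Finset.sum_congr rfl fun k _ => ?_
      ring
    refine nf_of (tr a g) ?_ ?_ ?_ ?_
    · have : tr a g 3 3 3 = cub a x := by
        simp only [tr, cub, g3, Algebra.algebraMap_self, RingHom.id_apply]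
      rw [this, hc]
    · rw [key 0 _ g0]
      exact LinearMap.mem_ker.1 y0.2
    · rw [key 1 _ g1]
      exact LinearMap.mem_ker.1 y1.2
    · rw [key 2 _ g2]
      exact hφy2

end Pool.Agent.H468R3.CS
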